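import Pool.Agent.Helper9.UNI.Sheet

/-!
Project UNI, row KSMu: uniform lower bound for curves of bounded size.
-/

set_option autoImplicit false

namespace Pool.Agent.Helper12.UNI

open Polynomial NumberField
open Pool.Agent.Helper42.LS Pool.Agent.Helper42.LK Pool.Agent.Helper54.LS Pool.Agent.Helper54.LM
  Pool.Agent.Helper92.LV Pool.Agent.Helper9.LS5 Pool.Agent.Helper54.LM3 Pool.Agent.Helper9.UNI

/-- the polynomial whose roots are the `x` with `p (x ^ 6 / d) = 0` -/
noncomputable def lp {K : Type} [Field K] (d : K) (p : ℤ[X]) : K[X] :=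
  (p.map (Int.castRingHom K)).comp (C d⁻¹ * X ^ 6)

open Classical in
theorem lp_props {K : Type} [Field K] [CharZero K] {d : K} (hd : d ≠ 0) {p : ℤ[X]} (hp : p ≠ 0)
    {D : ℕ} (hD : p.natDegree ≤ D) : lp d p ≠ 0 ∧ (lp d p).roots.toFinset.card ≤ 6 * D ∧
    ∀ x : K, aeval (x ^ 6 / d) p = 0 → x ∈ (lp d p).roots.toFinset := by
  have hinj : Function.Injective (Int.castRingHom K) := RingHom.injective_int _
  have hpm : p.map (Int.castRingHom K) ≠ 0 := (Polynomial.map_ne_zero_iff hinj).mpr hp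
  have hdi : d⁻¹ ≠ 0 := inv_ne_zero hd
  have hq : (C d⁻¹ * X ^ 6 : K[X]).natDegree = 6 := natDegree_C_mul_X_pow 6 _ hdi
  have hq0 : (C d⁻¹ * X ^ 6 : K[X]).leadingCoeff ≠ 0 := by
    rw [leadingCoeff_C_mul_X_pow]
    exact hdi
  have hne : lp d p ≠ 0 := by
    intro h0
    have h1 : (lp d p).leadingCoeff = 0 := by rw [h0, leadingCoeff_zero]
    unfold lp at h1
    rw [leadingCoeff_comp (by rw [hq]; norm_num)] at h1
    exact (mul_ne_zero (leadingCoeff_ne_zero.mpr hpm) (pow_ne_zero _ hq0)) h1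
  have hdeg : (lp d p).natDegree ≤ 6 * D := by
    unfold lp
    rw [natDegree_comp, hq, mul_comm]
    exact Nat.mul_le_mul_left 6 (le_trans natDegree_map_le hD)
  refine ⟨hne, ?_, ?_⟩
  · calc (lp d p).roots.toFinset.card ≤ Multiset.card (lp d p).roots :=
          Multiset.toFinset_card_le _
      _ ≤ (lp d p).natDegree := card_roots' _
      _ ≤ 6 * D := hdeg
  · intro x hx
    rw [Multiset.mem_toFinset, mem_roots hne, IsRoot.def]
    unfold lp
    rw [eval_comp, eval_mul, eval_C, eval_pow, eval_X]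
    have e : d⁻¹ * x ^ 6 = x ^ 6 / d := by rw [div_eq_mul_inv, mul_comm]
    rw [e, eval_map]
    rw [aeval_def] at hx
    exact hx

theorem KSMu (hHBD : ST_HBD) (hCNT : ST_CNT) : ST_KSMu := by
  classical
  intro D H₀
  obtain ⟨C, hC0, hC⟩ := hHBD D H₀
  obtain ⟨F, hF, hF'⟩ := hCNT D (6 + C)
  set N : ℕ := 6 * D * F.card + 1 with hN
  have hNpos : (0 : ℝ) < (N : ℝ) ^ 2 := by
    have : 0 < N := Nat.succ_pos _
    positivity
  refine ⟨1 / (N : ℝ) ^ 2, by positivity, ?_⟩
  intro K _ _ hK A B hdsc hHK x y e hG he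
  by_contra hlt
  push Not at hlt
  rw [lt_div_iff₀ hNpos] at hlt
  -- the points `x 1, ..., x N`
  have hmem : ∀ k ∈ Finset.Icc 1 N, x k ∈ F.biUnion (fun p => (lp (dsc A B) p).roots.toFinset) := by
    intro k hk
    rw [Finset.mem_Icc] at hk
    have h1 := hC K hK A B hdsc hHK x y e hG he k hk.1
    have h2 : (k : ℝ) ^ 2 * e ≤ 1 := by
      rcases le_or_gt e 0 with h0 | h0
      · have : (k : ℝ) ^ 2 * e ≤ 0 := mul_nonpos_of_nonneg_of_nonpos (by positivity) h0
        linarith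
      · have h3 : (k : ℝ) ≤ N := by exact_mod_cast hk.2
        have h4 : (k : ℝ) ^ 2 * e ≤ (N : ℝ) ^ 2 * e := by gcongr
        linarith
    obtain ⟨p, hp, hpz⟩ := hF' K hK (x k ^ 6 / dsc A B) (by linarith)
    rw [Finset.mem_biUnion]
    exact ⟨p, hp, (lp_props hdsc (hF p hp).1 (hF p hp).2).2.2 _ hpz⟩
  have hinj : Set.InjOn x (Finset.Icc 1 N : Finset ℕ) := by
    intro k hk l hl hkl
    rw [Finset.mem_coe, Finset.mem_Icc] at hk hl
    rcases lt_trichotomy k l with h | h | h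
    · exact absurd hkl.symm (hG.xne l k hk.1 h)
    · exact h
    · exact absurd hkl (hG.xne k l hl.1 h)
  have hcard := Finset.card_le_card_of_injOn x hmem hinj
  rw [Nat.card_Icc] at hcard
  have hb : (F.biUnion (fun p => (lp (dsc A B) p).roots.toFinset)).card ≤ F.card * (6 * D) :=
    Finset.card_biUnion_le_card_mul _ _ _
      (fun p hp => (lp_props hdsc (hF p hp).1 (hF p hp).2).2.1)
  have h5 : N + 1 - 1 ≤ F.card * (6 * D) := le_trans hcard hb
  have h6 : F.card * (6 * D) = 6 * D * F.card := mul_comm _ _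
  omega

end Pool.Agent.Helper12.UNI
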